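import Pool.Agent.H17.CI.TargetsB
import Pool.Agent.H66.VG.IM

/-!
# MP_70ba79_ag: row IQT
-/

set_option autoImplicit false

namespace Pool.Agent.H59.CI

open MvPolynomial SC Pool.Agent.H27.LV Pool.Agent.H17.VG Pool.Agent.H17.CI Pool.Agent.H66.VG

variable {R K : Type} [Field R] [Field K] [Algebra R K] {n : ℕ} {ι : Type}

/-- the symbol of `(D, 0)` vanishes -/
lemma sym_D {e : ι → ℕ} {F : Tup ι K n} {D : Derivation R K K} (hS : SysT e F D) :
    Sym F ((D, 0) : Op R K n) 0 0 := by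
  refine ⟨fun j => rfl, fun i => ?_⟩
  rw [opF_D, hS.base i]
  simp

lemma sym_sub_D (hOP : T_OP) {e : ι → ℕ} {F : Tup ι K n} {D : Derivation R K K}
    (hS : SysT e F D) {τ : Op R K n} {l : ι → K} {G : Tup ι K n} (h : Sym F τ l G) (b : K) :
    Sym F (τ - b • ((D, 0) : Op R K n)) l G := by
  refine ⟨fun j => ?_, fun i => ?_⟩
  · have := h.1 j
    change τ.2 0 j - b * 0 = 0
    rw [mul_zero, sub_zero]
    exact this
  · rw [← opFL_apply hOP, map_sub, map_smul, opFL_apply, opFL_apply, opF_D, hS.base, smul_zero,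
      sub_zero]
    exact h.2 i

lemma self_mem_UtT (F : Tup ι K n) (x : Fin (n + 1) → K) (W : Submodule K (Tup ι K n)) :
    x ∈ UtT R F x W := Submodule.subset_span (Or.inr rfl)

lemma mem_UtT {F : Tup ι K n} {x : Fin (n + 1) → K} {W : Submodule K (Tup ι K n)}
    {τ : Op R K n} {l : ι → K} {G : Tup ι K n} (h : Sym F τ l G) (hG : G ∈ W) :
    opV τ x ∈ UtT R F x W := Submodule.subset_span (Or.inl ⟨τ, l, G, hG, h, rfl⟩)

lemma pair_le_UtT {e : ι → ℕ} {F : Tup ι K n} {D : Derivation R K K} (hS : SysT e F D)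
    (x : Fin (n + 1) → K) (W : Submodule K (Tup ι K n)) :
    Submodule.span K ({x, fun i => D (x i)} : Set (Fin (n + 1) → K)) ≤ UtT R F x W := by
  rw [Submodule.span_le]
  rintro w (rfl | rfl)
  · exact self_mem_UtT F _ W
  · have := mem_UtT (x := x) (sym_D hS) W.zero_mem
    rwa [opV_D] at this

/-- subtraction of a multiple of `(D, 0)` -/
lemma adjustT (hOP : T_OP) {e : ι → ℕ} {F : Tup ι K n} {D : Derivation R K K}
    (hS : SysT e F D) (x : Fin (n + 1) → K) {τ : Op R K n} {l : ι → K} {G : Tup ι K n}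
    (hs : Sym F τ l G)
    (h : opV τ x ∈ Submodule.span K ({x, fun i => D (x i)} : Set (Fin (n + 1) → K))) :
    ∃ (τ' : Op R K n) (a : K), Sym F τ' l G ∧ opV τ' x = a • x := by
  obtain ⟨a, b, hab⟩ := Submodule.mem_span_pair.1 h
  refine ⟨τ - b • ((D, 0) : Op R K n), a, sym_sub_D hOP hS hs b, ?_⟩
  rw [← opVL_apply hOP, map_sub, map_smul, opVL_apply, opVL_apply, opV_D, ← hab]
  simp

lemma indep_pt {x y : Fin (n + 1) → K} (hx : x 0 = 1) (hy0 : y 0 = 0) (hy : y ≠ 0) :
    Indep x y := by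
  unfold Indep
  rw [LinearIndependent.pair_iff]
  intro s t h
  have h0 := congrFun h 0
  simp only [Pi.add_apply, Pi.smul_apply, smul_eq_mul, hx, hy0, mul_one, mul_zero, add_zero,
    Pi.zero_apply] at h0
  refine ⟨h0, ?_⟩
  rw [h0, zero_smul, zero_add] at h
  exact (smul_eq_zero.1 h).resolve_right hy

/-- families of polynomials of bounded degrees -/
noncomputable def tupL (K : Type) [Field K] (e : ι → ℕ) :
    (∀ i, Polynomial.degreeLT K (e i + 1)) →ₗ[K] (ι → Polynomial K) :=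
  LinearMap.pi fun i => (Polynomial.degreeLT K (e i + 1)).subtype ∘ₗ LinearMap.proj i

lemma tupL_apply (e : ι → ℕ) (p : ∀ i, Polynomial.degreeLT K (e i + 1)) (i : ι) :
    tupL K e p i = (p i : Polynomial K) := rfl

lemma finrank_tupL [Fintype ι] (e : ι → ℕ) :
    Module.finrank K (LinearMap.range (tupL K e)) = ∑ i, (e i + 1) := by
  rw [LinearMap.finrank_range_of_inj, Module.finrank_pi_fintype]
  · exact Finset.sum_congr rfl fun i _ => finrank_degreeLT _
  · intro p q h
    funext i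
    exact Subtype.ext (congrFun h i)

theorem pf_IQT (hOP : T_OP) (hRO : T_RO) : T_IQT := by
  intro R K _ _ _ _ n ι _ e F D Z x y ξ hS hP hy0 hy h1 h2 Y hYf hY
  have : FiniteDimensional K Y := hYf
  have hxy : Indep x y := indep_pt hP.one hy0 hy
  let S1 : Submodule K (Tup ι K n × (Op R K n × (ι → K))) :=
    { carrier := {v | (∀ i, (v.1 i).IsHomogeneous (e i)) ∧
        Sym F v.2.1 v.2.2 (fun i => lin ξ * v.1 i)}
      zero_mem' := by
        refine ⟨fun i => MvPolynomial.isHomogeneous_zero _ _ _, fun j => rfl, fun i => ?_⟩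
        change opF (0 : Op R K n) (F i) + C 0 * F i = lin ξ * 0
        rw [← opFL_apply hOP, map_zero]
        simp
      add_mem' := by
        rintro a b ⟨ha1, ha2, ha3⟩ ⟨hb1, hb2, hb3⟩
        refine ⟨fun i => (ha1 i).add (hb1 i), fun j => ?_, fun i => ?_⟩
        · change a.2.1.2 0 j + b.2.1.2 0 j = 0
          rw [ha2 j, hb2 j, add_zero]
        · change opF (a.2.1 + b.2.1) (F i) + C (a.2.2 i + b.2.2 i) * F i =
            lin ξ * (a.1 i + b.1 i)
          have e1 : opF a.2.1 (F i) + C (a.2.2 i) * F i = lin ξ * a.1 i := ha3 i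
          have e2 : opF b.2.1 (F i) + C (b.2.2 i) * F i = lin ξ * b.1 i := hb3 i
          rw [← opFL_apply hOP, map_add, opFL_apply, opFL_apply, C_add, mul_add, ← e1, ← e2]
          ring
      smul_mem' := by
        rintro c a ⟨ha1, ha2, ha3⟩
        refine ⟨fun i => ?_, fun j => ?_, fun i => ?_⟩
        · change (c • a.1 i).IsHomogeneous (e i)
          rw [MvPolynomial.smul_eq_C_mul]
          have := (MvPolynomial.isHomogeneous_C (Fin (n + 1)) c).mul (ha1 i)
          simpa using this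
        · change c * a.2.1.2 0 j = 0
          rw [ha2 j, mul_zero]
        · change opF (c • a.2.1) (F i) + C (c * a.2.2 i) * F i = lin ξ * (c • a.1 i)
          have e1 : opF a.2.1 (F i) + C (a.2.2 i) * F i = lin ξ * a.1 i := ha3 i
          rw [← opFL_apply hOP, map_smul, opFL_apply, MvPolynomial.smul_eq_C_mul,
            MvPolynomial.smul_eq_C_mul, C_mul]
          linear_combination C c * e1 }
  have hS1 : ∀ v : Tup ι K n × (Op R K n × (ι → K)), v ∈ S1 ↔
      (∀ i, (v.1 i).IsHomogeneous (e i)) ∧ Sym F v.2.1 v.2.2 (fun i => lin ξ * v.1 i) :=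
    fun v => Iff.rfl
  let α : S1 →ₗ[K] (Fin (n + 1) → K) :=
    opVL hOP x ∘ₗ LinearMap.fst K _ _ ∘ₗ LinearMap.snd K _ _ ∘ₗ S1.subtype
  let β : S1 →ₗ[K] (ι → Polynomial K) :=
    (LinearMap.pi fun i => resL x y ∘ₗ LinearMap.proj i) ∘ₗ LinearMap.fst K _ _ ∘ₗ S1.subtype
  have hα : ∀ v : S1, α v = opV (v : Tup ι K n × (Op R K n × (ι → K))).2.1 x := fun v => rfl
  have hβ : ∀ v : S1, β v = fun i => res x y ((v : Tup ι K n × (Op R K n × (ι → K))).1 i) :=
    fun v => rfl
  have hIl : ∀ v : S1, (fun i => lin ξ * (v : Tup ι K n × (Op R K n × (ι → K))).1 i) ∈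
      IlT e x y := by
    intro v
    obtain ⟨h3, h4⟩ := (hS1 v).1 v.2
    unfold IlT
    rw [Submodule.mem_pi]
    intro i _
    exact Submodule.subset_span ⟨ξ, _, h1, h2, h3 i, rfl⟩
  have : FiniteDimensional K (LinearMap.range (tupL K e)) := inferInstance
  have h := key α β (UtT R F x (IlT e x y))
    (Submodule.span K ({x, fun i => D (x i)} : Set (Fin (n + 1) → K))) Y
    (LinearMap.range (tupL K e)) (pair_le_UtT hS x _)
    (fun v => mem_UtT ((hS1 v).1 v.2).2 (hIl v)) (by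
      intro v hv
      rw [hβ]
      obtain ⟨h3, h4⟩ := (hS1 v).1 v.2
      obtain ⟨τ', a, h5, h6⟩ := adjustT hOP hS x h4 hv
      exact hY _ h3 τ' _ a h5 h6) (by
      rintro _ ⟨p, rfl⟩
      have hex : ∀ i, ∃ Q : MvPolynomial (Fin (n + 1)) K, Q.IsHomogeneous (e i) ∧
          res x y Q = (p i : Polynomial K) :=
        fun i => hRO K n (e i) x y hxy _ (mem_degreeLT.1 (p i).2)
      choose Q hQ hQp using hex
      have hG : ∀ i, (lin ξ * Q i).IsHomogeneous (e i + 1) := by
        intro i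
        have h0 := (lin_homog ξ).mul (hQ i)
        rwa [add_comm 1 (e i)] at h0
      obtain ⟨τ, l, hτ⟩ := hS.surj _ hG
      refine ⟨⟨(Q, τ, l), (hS1 _).2 ⟨hQ, hτ⟩⟩, ?_⟩
      rw [hβ]
      funext i
      exact hQp i)
  rw [finrank_tupL, finrank_pair hP.dx] at h
  omega

end Pool.Agent.H59.CI
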